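import Mathlib

/-!
The hyperplane integral condition does not characterise the normal density.
-/

set_option autoImplicit false

namespace Pool.Agent.Results.MP_d643ae_pr.NonNormalForEveryN

open MeasureTheory Real

noncomputable section

/-- Probability density on the real line. -/
def IsDensity (f : ℝ → ℝ) : Prop := (∀ x, 0 ≤ f x) ∧ Integrable f ∧ ∫ x, f x = 1

/-- The normal density with mean `a` and standard deviation `σ`. -/
def normalDensity (a σ : ℝ) (x : ℝ) : ℝ :=
  (√(2 * π * σ ^ 2))⁻¹ * exp (-(x - a) ^ 2 / (2 * σ ^ 2))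

/-- The hyperplane condition (for all points with `x_1 + ... + x_n = 0`), including existence of
the integral. -/
def HyperplaneCondition (n : ℕ) (c : ℝ) (f g : ℝ → ℝ) : Prop :=
  ∀ x : Fin n → ℝ, ∑ j, x j = 0 →
    Integrable (fun u => (u - c) * g u * ∏ j, f (x j - u)) ∧
      ∫ u, (u - c) * g u * ∏ j, f (x j - u) = 0

lemma density_of_pos {F : ℝ → ℝ} (hF : ∀ x, 0 < F x) (hI : Integrable F) :
    0 < ∫ x, F x ∧ IsDensity (fun x => (∫ y, F y)⁻¹ * F x) := by
  have hpos : 0 < ∫ x, F x := by
    rw [integral_pos_iff_support_of_nonneg (fun x => (hF x).le) hI]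
    have : Function.support F = Set.univ := by
      ext x; simp [(hF x).ne']
    rw [this]
    simp
  refine ⟨hpos, fun x => mul_nonneg (inv_nonneg.mpr hpos.le) (hF x).le, hI.const_mul _, ?_⟩
  rw [integral_const_mul]
  exact inv_mul_cancel₀ hpos.ne'

/-- unnormalised f -/
def f0 (x : ℝ) : ℝ := exp (-x ^ 2 / 2) * (1 + cos (2 * π * x) / 2)

lemma per_pos (y : ℝ) : 0 < 1 + cos y / 2 := by
  have := neg_one_le_cos y
  linarith

lemma per_le (y : ℝ) : 1 + cos y / 2 ≤ 3 / 2 := by
  have := cos_le_one y
  linarith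

lemma f0_pos (x : ℝ) : 0 < f0 x := mul_pos (exp_pos _) (per_pos _)

lemma f0_cont : Continuous f0 := by unfold f0; fun_prop

lemma gauss_int {b : ℝ} (hb : 0 < b) (s : ℝ) : Integrable (fun x : ℝ => exp (-b * (x - s) ^ 2)) :=
  (integrable_exp_neg_mul_sq hb).comp_sub_right s

lemma f0_int : Integrable f0 := by
  have h := (gauss_int (b := 1/2) (by norm_num) 0).const_mul (3 / 2)
  refine h.mono' f0_cont.aestronglyMeasurable (Filter.Eventually.of_forall (fun x => ?_))
  rw [norm_of_nonneg (f0_pos x).le]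
  unfold f0
  have e : exp (-(1/2) * (x - 0) ^ 2) = exp (-x ^ 2 / 2) := by congr 1; ring
  rw [e, mul_comm]
  exact mul_le_mul_of_nonneg_right (per_le _) (exp_pos _).le

/-- S(u) = sinh(Au)/u -/
def S (A u : ℝ) : ℝ := if u = 0 then A else sinh (A * u) / u

lemma S_pos {A : ℝ} (hA : 0 < A) (u : ℝ) : 0 < S A u := by
  unfold S
  split_ifs with h
  · exact hA
  · rcases lt_or_gt_of_ne h with h | h
    · exact div_pos_of_neg_of_neg (sinh_neg_iff.mpr (mul_neg_of_pos_of_neg hA h)) h
    · exact div_pos (sinh_pos_iff.mpr (mul_pos hA h)) h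

lemma sinh_le_mul_cosh {t : ℝ} (ht : 0 ≤ t) : sinh t ≤ t * cosh t := by
  have h : MonotoneOn (fun t => t * cosh t - sinh t) (Set.Ici 0) := by
    apply monotoneOn_of_deriv_nonneg (convex_Ici 0)
    · fun_prop
    · fun_prop
    · intro x hx
      rw [interior_Ici] at hx
      have hx' : (0 : ℝ) < x := hx
      have hd : deriv (fun t => t * cosh t - sinh t) x = x * sinh x := by
        have h1 : HasDerivAt (fun t => t * cosh t - sinh t) (1 * cosh x + x * sinh x - cosh x) x :=
          ((hasDerivAt_id x).mul (hasDerivAt_cosh x)).sub (hasDerivAt_sinh x)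
        rw [h1.deriv]; ring
      rw [hd]
      exact mul_nonneg hx'.le (sinh_nonneg_iff.mpr hx'.le)
  have := h (Set.mem_Ici.mpr (le_refl (0 : ℝ))) (Set.mem_Ici.mpr ht) ht
  simp at this
  exact this

lemma S_le {A : ℝ} (hA : 0 < A) (u : ℝ) : S A u ≤ A * cosh (A * u) := by
  unfold S
  split_ifs with h
  · subst h; simp
  · rcases lt_or_gt_of_ne h with h | h
    · have h1 := sinh_le_mul_cosh (t := A * -u) (by nlinarith)
      rw [mul_neg, sinh_neg, cosh_neg] at h1
      rw [div_le_iff_of_neg h]
      nlinarith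
    · have h1 := sinh_le_mul_cosh (t := A * u) (by positivity)
      rw [div_le_iff₀ h]
      nlinarith

lemma S_meas (A : ℝ) : Measurable (S A) := by
  unfold S
  apply Measurable.ite (measurableSet_singleton 0)
  · fun_prop
  · fun_prop

lemma u_mul_S (A u : ℝ) : u * S A u = sinh (A * u) := by
  unfold S
  split_ifs with h
  · subst h; simp
  · field_simp

/-- unnormalised g -/
def g0 (A u : ℝ) : ℝ := exp (-u ^ 2) * S A u

lemma g0_pos {A : ℝ} (hA : 0 < A) (u : ℝ) : 0 < g0 A u := mul_pos (exp_pos _) (S_pos hA u)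

lemma g0_int {A : ℝ} (hA : 0 < A) : Integrable (g0 A) := by
  have h := (((gauss_int (b := 1) one_pos (A / 2)).add (gauss_int (b := 1) one_pos (-(A / 2)))).const_mul
    (A / 2 * exp (A ^ 2 / 4)))
  refine h.mono' ?_ (Filter.Eventually.of_forall (fun u => ?_))
  · unfold g0
    exact ((by fun_prop : Measurable (fun u : ℝ => exp (-u ^ 2))).mul (S_meas A)).aestronglyMeasurable
  · rw [norm_of_nonneg (g0_pos hA u).le]
    unfold g0
    calc exp (-u ^ 2) * S A u ≤ exp (-u ^ 2) * (A * cosh (A * u)) :=
          mul_le_mul_of_nonneg_left (S_le hA u) (exp_pos _).le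
      _ = A / 2 * (exp (-u ^ 2) * exp (A * u) + exp (-u ^ 2) * exp (-(A * u))) := by
          rw [cosh_eq]; ring
      _ = A / 2 * exp (A ^ 2 / 4) * (exp (-1 * (u - A / 2) ^ 2) + exp (-1 * (u - -(A / 2)) ^ 2)) := by
          rw [mul_assoc (A / 2), mul_add (exp (A ^ 2 / 4)), ← exp_add, ← exp_add, ← exp_add, ← exp_add]
          congr 2
          · congr 1; ring
          · congr 1; ring

/-- There is a non-normal (positive) probability density `f` such that for every `n ≥ 3` there is an
everywhere positive probability density `g` for which the hyperplane condition holds with `c = 0`. -/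
theorem result : ∃ f : ℝ → ℝ, IsDensity f ∧ (∀ x, 0 < f x) ∧
    (∀ a σ : ℝ, 0 < σ → ¬ f =ᵐ[volume] normalDensity a σ) ∧
    ∀ n : ℕ, 3 ≤ n → ∃ g : ℝ → ℝ, IsDensity g ∧ (∀ x, 0 < g x) ∧ HyperplaneCondition n 0 f g := by
  obtain ⟨hIpos, hfd⟩ := density_of_pos f0_pos f0_int
  set C : ℝ := (∫ y, f0 y)⁻¹ with hC
  have hCpos : 0 < C := inv_pos.mpr hIpos
  refine ⟨fun x => C * f0 x, hfd, fun x => mul_pos hCpos (f0_pos x), ?_, ?_⟩
  · intro a σ hσ hae
    have hcont1 : Continuous (fun x => C * f0 x) := f0_cont.const_mul C |>.congr (fun _ => rfl)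
    have hcont2 : Continuous (normalDensity a σ) := by unfold normalDensity; fun_prop
    have heq := (hcont1.ae_eq_iff_eq (μ := volume) hcont2).mp hae
    set D : ℝ := (√(2 * π * σ ^ 2))⁻¹ with hD
    have hDpos : 0 < D := by
      rw [hD]; positivity
    have hlog : ∀ x, Real.log C + (-x ^ 2 / 2) + Real.log (1 + cos (2 * π * x) / 2) =
        Real.log D + (-(x - a) ^ 2 / (2 * σ ^ 2)) := by
      intro x
      have h1 := congrFun heq x
      simp only [f0, normalDensity] at h1
      have h2 := congrArg Real.log h1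
      rw [Real.log_mul hCpos.ne' (mul_pos (exp_pos _) (per_pos _)).ne',
        Real.log_mul (exp_pos _).ne' (per_pos _).ne', Real.log_exp, Real.log_mul hDpos.ne' (exp_pos _).ne',
        Real.log_exp] at h2
      linarith
    have c0 : cos (2 * π * 0) = 1 := by simp
    have c1 : cos (2 * π * 1) = 1 := by simp
    have c2 : cos (2 * π * (-1)) = 1 := by simp
    have c3 : cos (2 * π * (1 / 2)) = -1 := by
      rw [show 2 * π * (1 / 2) = π by ring, cos_pi]
    have e0 := hlog 0
    have e1 := hlog 1
    have e2 := hlog (-1)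
    have e3 := hlog (1 / 2)
    rw [c0] at e0
    rw [c1] at e1
    rw [c2] at e2
    rw [c3] at e3
    have hs : 0 < 2 * σ ^ 2 := by positivity
    set r : ℝ := (2 * σ ^ 2)⁻¹ with hr
    simp only [div_eq_mul_inv _ (2 * σ ^ 2)] at e0 e1 e2 e3
    rw [← hr] at e0 e1 e2 e3
    have hrpos : 0 < r := inv_pos.mpr hs
    -- a = 0
    have ha : a * r = 0 := by nlinarith
    have hr2 : r = 1 / 2 := by nlinarith
    have hlt : Real.log (1 + -1 / 2) < Real.log (1 + 1 / 2) :=
      Real.log_lt_log (by norm_num) (by norm_num)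
    nlinarith
  · intro n _
    set A : ℝ := n / 2 + 1 with hA
    have hApos : 0 < A := by positivity
    obtain ⟨hJpos, hgd⟩ := density_of_pos (g0_pos hApos) (g0_int hApos)
    set C' : ℝ := (∫ y, g0 A y)⁻¹ with hC'
    refine ⟨fun x => C' * g0 A x, hgd, fun x => mul_pos (inv_pos.mpr hJpos) (g0_pos hApos x), ?_⟩
    intro x hx
    set P : ℝ → ℝ := fun u => ∏ j, (1 + cos (2 * π * (x j - u)) / 2) with hP
    have hPper : ∀ u, P (u + 1) = P u := by
      intro u
      simp only [hP]
      refine Finset.prod_congr rfl (fun j _ => ?_)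
      have : 2 * π * (x j - (u + 1)) = 2 * π * (x j - u) - 2 * π := by ring
      rw [this, cos_sub_two_pi]
    have hPcont : Continuous P := by
      simp only [hP]
      fun_prop
    have hPnn : ∀ u, 0 ≤ P u := fun u => Finset.prod_nonneg (fun j _ => (per_pos _).le)
    have hPle : ∀ u, P u ≤ (3 / 2) ^ n := by
      intro u
      simp only [hP]
      calc ∏ j, (1 + cos (2 * π * (x j - u)) / 2) ≤ ∏ _j : Fin n, (3 / 2 : ℝ) :=
            Finset.prod_le_prod (fun j _ => (per_pos _).le) (fun j _ => per_le _)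
        _ = _ := by rw [Finset.prod_const, Finset.card_univ, Fintype.card_fin]
    set F1 : ℝ → ℝ := fun u => exp (-A * (u - 1 / 2) ^ 2) * P u with hF1
    have hF1int : Integrable F1 := by
      have h := (gauss_int hApos (1 / 2)).mul_const ((3 / 2 : ℝ) ^ n)
      refine h.mono' (by simp only [hF1]; fun_prop) (Filter.Eventually.of_forall (fun u => ?_))
      rw [norm_of_nonneg (mul_nonneg (exp_pos _).le (hPnn u))]
      exact mul_le_mul_of_nonneg_left (hPle u) (exp_pos _).le
    have hF2int : Integrable (fun u => F1 (u + 1)) := hF1int.comp_add_right 1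
    set K : ℝ := C' * C ^ n * exp (-(∑ j, x j ^ 2) / 2) * exp (A / 4) / 2 with hK
    have hpt : ∀ u, (u - 0) * (C' * g0 A u) * ∏ j, (C * f0 (x j - u)) = K * (F1 u - F1 (u + 1)) := by
      intro u
      have h1 : ∏ j, (C * f0 (x j - u)) = C ^ n * (exp (-(∑ j, x j ^ 2) / 2) * exp (-(n / 2) * u ^ 2) * P u) := by
        rw [Finset.prod_mul_distrib]
        simp only [f0, Finset.prod_mul_distrib, Finset.prod_const, Finset.card_univ, Fintype.card_fin]
        rw [← exp_sum, ← exp_add]
        congr 3
        have h2 : ∑ j, -(x j - u) ^ 2 / 2 = ∑ j, (-(x j ^ 2) / 2 + u * x j - u ^ 2 / 2) := by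
          refine Finset.sum_congr rfl (fun j _ => ?_)
          ring
        rw [h2, Finset.sum_sub_distrib, Finset.sum_add_distrib, ← Finset.mul_sum, hx]
        simp only [Finset.sum_const, Finset.card_univ, Fintype.card_fin, nsmul_eq_mul, ← Finset.sum_div,
          Finset.sum_neg_distrib]
        ring
      have h3 : (u - 0) * (C' * g0 A u) = C' * (exp (-u ^ 2) * sinh (A * u)) := by
        rw [← u_mul_S]
        unfold g0
        ring
      rw [h1, h3]
      have h4 : exp (-u ^ 2) * sinh (A * u) * exp (-(n / 2) * u ^ 2) =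
          exp (A / 4) / 2 * (exp (-A * (u - 1 / 2) ^ 2) - exp (-A * (u + 1 - 1 / 2) ^ 2)) := by
        rw [sinh_eq]
        have e1 : exp (-u ^ 2) * exp (A * u) * exp (-(n / 2) * u ^ 2) =
            exp (A / 4) * exp (-A * (u - 1 / 2) ^ 2) := by
          rw [← exp_add, ← exp_add, ← exp_add]
          congr 1
          rw [hA]; ring
        have e2 : exp (-u ^ 2) * exp (-(A * u)) * exp (-(n / 2) * u ^ 2) =
            exp (A / 4) * exp (-A * (u + 1 - 1 / 2) ^ 2) := by
          rw [← exp_add, ← exp_add, ← exp_add]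
          congr 1
          rw [hA]; ring
        linear_combination (1 / 2) * e1 - (1 / 2) * e2
      simp only [hF1]
      rw [hPper u, hK]
      linear_combination (C' * C ^ n * exp (-(∑ j, x j ^ 2) / 2) * P u) * h4
    have hfun : (fun u => (u - 0) * (C' * g0 A u) * ∏ j, (C * f0 (x j - u))) =
        fun u => K * (F1 u - F1 (u + 1)) := funext hpt
    constructor
    · rw [hfun]
      exact (hF1int.sub hF2int).const_mul K
    · rw [hfun, integral_const_mul, integral_sub hF1int hF2int,
        integral_add_right_eq_self (fun u => F1 u) 1, sub_self, mul_zero]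

end

end Pool.Agent.Results.MP_d643ae_pr.NonNormalForEveryN
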